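import Mathlib
import Pool.Agent.H55.SparseDiff

namespace Pool.Agent.Results.MP_5a03e9_nt.NoSuchSet

open Filter

/-- Upper Banach density: the limsup of `|E ∩ [M, M + l)| / l` over windows with `M ≥ 1`
whose length `l` tends to infinity. -/
noncomputable def banach (E : Set ℕ) : ℝ :=
  limsup (fun p : ℕ × ℕ => ((E ∩ Set.Ico (p.1 + 1) (p.1 + 1 + p.2)).ncard : ℝ) / (p.2 : ℝ))
    (comap Prod.snd atTop)

/-- Upper relative density of `A` in `E`. -/
noncomputable def upperRel (E A : Set ℕ) : ℝ :=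
  limsup (fun N : ℕ => ((A ∩ Set.Icc 1 N).ncard : ℝ) / ((E ∩ Set.Icc 1 N).ncard : ℝ)) atTop

/-- The difference set `A - A` in the integers. -/
def diffSet (A : Set ℕ) : Set ℤ := {d | ∃ a ∈ A, ∃ b ∈ A, d = (a : ℤ) - (b : ℤ)}

/-- Every block of `L` consecutive integers meets `S`. -/
def Syndetic (S : Set ℤ) : Prop := ∃ L : ℕ, 1 ≤ L ∧ ∀ m : ℤ, ∃ s ∈ S, m ≤ s ∧ s < m + L

theorem result : ∀ E : Set ℕ, 0 ∉ E → E.Infinite → banach E = 0 →
    ∃ A : Set ℕ, A ⊆ E ∧ 0 < upperRel E A ∧ ¬ Syndetic (diffSet A) := by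
  intro E _ hinf hB
  have hS : Pool.Agent.H55.SparseDiff.Sparse E := by
    intro ε hε
    unfold banach at hB
    simp only [Pool.Agent.H55.SparseDiff.win_eq] at hB
    have hev := eventually_lt_of_limsup_lt (hB ▸ hε) (hu := ⟨1, by
      simp only [eventually_map]
      exact Eventually.of_forall (fun p => Pool.Agent.H55.SparseDiff.win_div_le E p.1 p.2)⟩)
    rw [eventually_comap, eventually_atTop] at hev
    obtain ⟨L, hL⟩ := hev
    refine ⟨L + 1, fun l hl M => ?_⟩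
    have h1 := hL l (by omega) (M, l) rfl
    have hpos : (0 : ℝ) < l := by
      have : 0 < l := by omega
      exact_mod_cast this
    rw [div_lt_iff₀ hpos] at h1
    exact h1.le
  obtain ⟨A, hAE, R, hR, -, hAR, hA⟩ := Pool.Agent.H55.SparseDiff.core E hS hinf
  refine ⟨A, hAE, ?_, ?_⟩
  · unfold upperRel
    simp only [Pool.Agent.H55.SparseDiff.cnt_eq]
    exact Pool.Agent.H55.SparseDiff.limsup_pos hAE hinf hA
  · rintro ⟨L, -, hL⟩
    obtain ⟨p, -, hp⟩ := hR L
    obtain ⟨s, ⟨a, ha, b, hb, rfl⟩, h1, h2⟩ := hL p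
    exact hAR a ha b hb (p + (a - b - p)) (hp _ (by omega)) (by omega)

end Pool.Agent.Results.MP_5a03e9_nt.NoSuchSet
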